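import Pool.Agent.H57.STS

namespace Pool.Agent.Results.MP_95c763_co.AffineAsymp

open Finset Filter Topology Pool.Agent.H57.STS

/-- `T` is a line of `AG(n,3)`: a triple of distinct vectors with sum zero -/
def IsLine {n : ℕ} (T : Finset (Fin n → ZMod 3)) : Prop :=
  ∃ x y z : Fin n → ZMod 3, x ≠ y ∧ x ≠ z ∧ y ≠ z ∧ x + y + z = 0 ∧
    ∀ w, w ∈ T ↔ w = x ∨ w = y ∨ w = z

/-- the set of all lines of `AG(n,3)` -/
noncomputable def lines (n : ℕ) : Finset (Finset (Fin n → ZMod 3)) :=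
  (Set.toFinite {T : Finset (Fin n → ZMod 3) | IsLine T}).toFinset

lemma three {n : ℕ} (x : Fin n → ZMod 3) : x + x + x = 0 := by
  funext i
  have : ∀ a : ZMod 3, a + a + a = 0 := by decide
  exact this (x i)

lemma mem_lines {n : ℕ} {T : Finset (Fin n → ZMod 3)} :
    T ∈ lines n ↔ ∃ x y z : Fin n → ZMod 3, x ≠ y ∧ x ≠ z ∧ y ≠ z ∧ x + y + z = 0 ∧
      T = {x, y, z} := by
  simp only [lines, IsLine, Set.Finite.mem_toFinset, Set.mem_setOf_eq, Finset.ext_iff, mem_insert,
    mem_singleton]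

lemma third {n : ℕ} {T : Finset (Fin n → ZMod 3)} (hT : T ∈ lines n) {x y : Fin n → ZMod 3}
    (hxy : x ≠ y) (hx : x ∈ T) (hy : y ∈ T) (z : Fin n → ZMod 3) :
    z ∈ T ↔ z = x ∨ z = y ∨ z = -x - y := by
  obtain ⟨u, v, w, -, -, -, hw, rfl⟩ := mem_lines.1 hT
  simp only [mem_insert, mem_singleton] at hx hy ⊢
  have e1 : -v - w = u := by linear_combination (exp := 1) -hw
  have e2 : -u - w = v := by linear_combination (exp := 1) -hw
  have e3 : -w - v = u := by linear_combination (exp := 1) -hw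
  have e4 : -w - u = v := by linear_combination (exp := 1) -hw
  have e5 : -u - v = w := by linear_combination (exp := 1) -hw
  have e6 : -v - u = w := by linear_combination (exp := 1) -hw
  clear hw hT
  rcases hx with hx | hx | hx <;> rcases hy with hy | hy | hy
  · exact absurd (hx.trans hy.symm) hxy
  · rw [hx, hy, e5]
  · rw [hx, hy, e2]; tauto
  · rw [hx, hy, e6]; tauto
  · exact absurd (hx.trans hy.symm) hxy
  · rw [hx, hy, e1]; tauto
  · rw [hx, hy, e4]; tauto
  · rw [hx, hy, e3]; tauto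
  · exact absurd (hx.trans hy.symm) hxy

lemma isSTS (n : ℕ) : IsSTS (lines n) := by
  refine isSTS_of (fun T hT => ?_) (fun x y hxy => ?_) (fun x y hxy T hT T' hT' hx hy hx' hy' => ?_)
  · obtain ⟨u, v, w, h1, h2, h3, -, rfl⟩ := mem_lines.1 hT
    exact card_eq_three.2 ⟨u, v, w, h1, h2, h3, rfl⟩
  · refine ⟨{x, y, -x - y}, mem_lines.2 ⟨_, _, _, hxy, fun h => hxy ?_, fun h => hxy ?_, by abel,
      rfl⟩, by simp, by simp⟩
    · linear_combination (exp := 1) three x - h
    · linear_combination (exp := 1) h - three y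
  · ext z
    rw [third hT hxy hx hy, third hT' hxy hx' hy']

lemma card_lines (n : ℕ) : ((lines n).card : ℝ) = 3 ^ n * (3 ^ n - 1) / 6 := by
  have h := (isSTS n).card_blocks
  have h1 : Fintype.card (Fin n → ZMod 3) ≤
    Fintype.card (Fin n → ZMod 3) * Fintype.card (Fin n → ZMod 3) := Nat.le_mul_self _
  have h3 : (6 * (lines n).card : ℝ) = (Fintype.card (Fin n → ZMod 3) : ℝ) *
      Fintype.card (Fin n → ZMod 3) - Fintype.card (Fin n → ZMod 3) := by
    exact_mod_cast h
  have h4 : (Fintype.card (Fin n → ZMod 3) : ℝ) = 3 ^ n := by simp [ZMod.card]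
  rw [h4] at h3
  linarith

lemma sparse {ε : ℝ} (hε : 0 < ε) : ∀ᶠ n in atTop, (0:ℝ) < 3 ^ n * (3 ^ n - 1) / 6 ∧
    ∀ S, IsDefining (lines n) S →
    ((lines n).card : ℝ) - S.card ≤ ε * (3 ^ n * (3 ^ n - 1) / 6) := by
  classical
  obtain ⟨N, hN⟩ := grid 3 (δ := ε / 4) (by positivity)
  filter_upwards [eventually_ge_atTop (max N 1)] with n hn
  have hQ : (3:ℝ) ≤ 3 ^ n := by
    have : (3:ℝ) ^ 1 ≤ 3 ^ n := pow_le_pow_right₀ (by norm_num) (by omega)
    linarith
  refine ⟨div_pos (mul_pos (by linarith) (by linarith)) (by norm_num), fun S hS => ?_⟩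
  by_contra hc
  push Not at hc
  have hcard := (isSTS n).card_pairs (U := lines n \ S) sdiff_subset
  obtain ⟨x, y, p, ⟨i, hi⟩, hxy⟩ := hN n (by omega) ((lines n \ S).biUnion offDiag) (by
      rw [hcard, card_sdiff_of_subset hS.1]
      push_cast [card_le_card hS.1]
      nlinarith [mul_le_mul_of_nonneg_left (show (3:ℝ) ^ n * 3 ^ n / 4 ≤
        3 ^ n * (3 ^ n - 1) by nlinarith) hε.le])
  have key : ∀ s t : ZMod 3,
      x + s • p ≠ y + t • p ∧ ∃ T ∈ lines n \ S, x + s • p ∈ T ∧ y + t • p ∈ T := by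
    intro s t
    obtain ⟨T, hT, hqT⟩ := mem_biUnion.1 (hxy s t)
    rw [mem_offDiag] at hqT
    exact ⟨hqT.2.2, T, hT, hqT.1, hqT.2.1⟩
  let base : Fin 3 → (Fin n → ZMod 3) := ![x, y, -x - y]
  have hdiff : ∀ r r' : Fin 3, r < r' → ∀ s t : ZMod 3, base r + s • p ≠ base r' + t • p := by
    intro r r' hr s t h
    fin_cases r <;> fin_cases r' <;> simp at hr
    · exact (key s t).1 h
    · apply (key t s).1
      have h' : x + s • p = -x - y + t • p := h
      linear_combination (exp := 1) three x - h' + three (t • p) - three (t • p)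
    · apply (key s t).1
      have h' : y + s • p = -x - y + t • p := h
      linear_combination (exp := 1) h' - three y
  let e : Fin 3 × ZMod 3 ↪ (Fin n → ZMod 3) := ⟨fun a => base a.1 + a.2 • p, by
    rintro ⟨r, s⟩ ⟨r', t⟩ h
    have h' : base r + s • p = base r' + t • p := h
    rcases lt_trichotomy r r' with hr | rfl | hr
    · exact absurd h' (hdiff _ _ hr _ _)
    · have := congrFun (add_left_cancel h') i
      simp only [Pi.smul_apply, hi, smul_eq_mul, mul_one] at this
      rw [this]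
    · exact absurd h'.symm (hdiff _ _ hr _ _)⟩
  refine not_defining_of_trade trade3 (isSTS n) hS e fun T hT => ?_
  obtain ⟨⟨s, t⟩, -, rfl⟩ := mem_image.1 hT
  obtain ⟨hne, T, hT, hxT, hyT⟩ := key s t
  convert hT using 1
  ext z
  rw [third (mem_sdiff.1 hT).1 hne hxT hyT]
  simp only [map_insert, map_singleton, mem_insert, mem_singleton]
  have e3 : e (2, 0 - s - t) = -(x + s • p) - (y + t • p) := by
    change -x - y + (0 - s - t) • p = _
    rw [sub_smul, sub_smul, zero_smul]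
    abel
  rw [e3]
  rfl

theorem result : (∀ n, IsSTS (lines n) ∧ ((lines n).card : ℝ) = 3 ^ n * (3 ^ n - 1) / 6) ∧
    Tendsto (fun n => (minDefining (lines n) : ℝ) / (3 ^ n * (3 ^ n - 1) / 6)) atTop (𝓝 1) :=
  ⟨fun n => ⟨isSTS n, card_lines n⟩,
    tendsto_of_sparse (fun n => Fin n → ZMod 3) lines isSTS _ card_lines fun _ hε => sparse hε⟩

end Pool.Agent.Results.MP_95c763_co.AffineAsymp
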